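import Pool.Agent.Lib.MP_9675a1_al.Thin.TL

/-! Length functions, balls in orbits, blocks, limits of pointed actions. -/

namespace Pool.Agent.Thin

open Filter

variable {G : Type} [Group G] {X : Type} [MulAction G X] {l : G → ℕ} {C : ℕ}

/-- a word length -/
structure Len (l : G → ℕ) : Prop where
  one : l 1 = 0
  mul : ∀ g h, l (g * h) ≤ l g + l h
  inv : ∀ g, l g⁻¹ = l g
  fin : ∀ n, {g | l g ≤ n}.Finite
  zero : ∀ g, l g = 0 → g = 1
  step : ∀ g n, l g ≤ n + 1 → ∃ s k, l s ≤ 1 ∧ l k ≤ n ∧ g = s * k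

/-- balls of the orbital graph -/
def bl (l : G → ℕ) (x : X) (r : ℕ) : Set X := (· • x) '' {g | l g ≤ r}

/-- inner boundary -/
def bd (l : G → ℕ) (A : Set X) : Set X := {y | y ∈ A ∧ ¬ bl l y 1 ⊆ A}

/-- a set with small boundary between two balls -/
def Cs (l : G → ℕ) (C : ℕ) (x : X) (r s : ℕ) : Prop :=
  ∃ A : Set X, bl l x r ⊆ A ∧ A ⊆ bl l x s ∧ (bd l A).ncard ≤ C

theorem Len.pow (h : Len l) (g : G) (n : ℕ) : l (g ^ n) ≤ n * l g := by
  induction n with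
  | zero => simp [h.one]
  | succ n ih => rw [pow_succ, add_one_mul]; exact (h.mul _ _).trans (by omega)

theorem Len.bl_fin (h : Len l) (x : X) (r : ℕ) : (bl l x r).Finite := (h.fin r).image _

theorem bl_mono (x : X) {r s : ℕ} (h : r ≤ s) : bl l x r ⊆ bl l x s :=
  Set.image_mono fun _ hg => le_trans hg h

theorem Len.smul_bl (h : Len l) {x y : X} {r : ℕ} (hy : y ∈ bl l x r) (g : G) :
    g • y ∈ bl l x (l g + r) := by
  obtain ⟨k, hk, rfl⟩ := hy
  exact ⟨g * k, (h.mul _ _).trans (Nat.add_le_add_left hk _), mul_smul _ _ _⟩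

theorem Len.grow (h : Len l) (x : X) (r : ℕ) (hx : ∃ g : G, g • x ∉ bl l x r) :
    r + 1 ≤ (bl l x r).ncard := by
  induction r with
  | zero => exact (Set.ncard_pos (h.bl_fin x 0)).2 ⟨_, 1, h.one.le, rfl⟩
  | succ r ih =>
    obtain ⟨g, hg⟩ := hx
    refine Nat.succ_le_of_lt ((ih ⟨g, fun e => hg (bl_mono x r.le_succ e)⟩).trans_lt
      (Set.ncard_lt_ncard ⟨bl_mono x r.le_succ, fun hs => hg ?_⟩ (h.bl_fin x _)))
    have : ∀ n, bl l x n ⊆ bl l x r := fun n => by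
      induction n with
      | zero => exact bl_mono x r.zero_le
      | succ n ih =>
        rintro _ ⟨k, hk, rfl⟩
        obtain ⟨s, k, h1, h2, rfl⟩ := h.step k n hk
        exact hs (bl_mono x (by omega) ((mul_smul s k x).symm ▸ h.smul_bl (ih ⟨k, h2, rfl⟩) s))
    exact bl_mono x r.le_succ (this (l g) ⟨g, le_refl (l g), rfl⟩)

theorem bl_bdd (l : G → ℕ) [MulAction.IsPretransitive G X] (x : X) (F : Finset X) :
    ∃ L, ∀ y ∈ F, y ∈ bl l x L := by
  choose g hg using fun y => MulAction.exists_smul_eq G x y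
  exact ⟨F.sup fun y => l (g y), fun y hy => ⟨g y, Finset.le_sup (f := fun y => l (g y)) hy, hg y⟩⟩

theorem exit {γ : ℕ → G} (h0 : γ 0 = 1) (h1 : ∀ t, l (γ (t + 1) * (γ t)⁻¹) ≤ 1) {A : Set X} {x : X}
    (hx : x ∈ A) (n : ℕ) (hn : γ n • x ∉ A) : ∃ t ≤ n, γ t • x ∈ bd l A := by
  induction n with
  | zero => exact (hn (by rwa [h0, one_smul])).elim
  | succ n ih =>
    by_cases e : γ n • x ∈ A
    · exact ⟨n, n.le_succ, e, fun e' => hn (e' ⟨_, h1 n, by simp [mul_smul]⟩)⟩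
    · exact (ih e).imp fun t ht => ⟨ht.1.trans n.le_succ, ht.2⟩

theorem Len.geo (h : Len l) (g : G) : ∃ γ : ℕ → G, γ 0 = 1 ∧ (∀ t, l (γ (t + 1) * (γ t)⁻¹) ≤ 1) ∧
    γ (l g) = g ∧ ∀ t, l (γ t) ≤ t ∧ l (g * (γ t)⁻¹) ≤ l g - t := by
  have : ∀ g, ∃ k, l k ≤ l g - 1 ∧ l (k⁻¹ * g) ≤ 1 := fun g => by
    obtain ⟨s, k, h1, h2, h3⟩ := h.step g⁻¹ (l g - 1) (by rw [h.inv]; omega)
    exact ⟨k⁻¹, (h.inv k).trans_le h2, by
      rwa [← h.inv, mul_inv_rev, h3, inv_inv, mul_inv_cancel_right]⟩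
  choose f f1 f2 using this
  have k1 : ∀ t, l (f^[t] g) ≤ l g - t := fun t => by
    induction t with
    | zero => exact le_rfl
    | succ t ih => rw [Function.iterate_succ_apply']; exact (f1 _).trans (by omega)
  have k2 : ∀ t, l ((f^[t + 1] g)⁻¹ * g * ((f^[t] g)⁻¹ * g)⁻¹) ≤ 1 := fun t => by
    simpa [Function.iterate_succ_apply', mul_assoc] using f2 (f^[t] g)
  refine ⟨fun t => (f^[t] g)⁻¹ * g, by simp, k2, by
    simp [h.zero _ (Nat.le_zero.1 ((k1 (l g)).trans (Nat.sub_self _).le))],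
    fun t => ⟨?_, by simpa using k1 t⟩⟩
  induction t with
  | zero => simp [h.one]
  | succ t ih =>
    have := h.mul ((f^[t + 1] g)⁻¹ * g * ((f^[t] g)⁻¹ * g)⁻¹) ((f^[t] g)⁻¹ * g)
    rw [inv_mul_cancel_right] at this
    have := k2 t
    dsimp only at ih ⊢
    omega

/-- blocks of an infinite system of blocks have at most `C` points -/
theorem Len.block (h : Len l) [MulAction.IsPretransitive G X] {y : X} {φ : ℕ → ℕ}
    (hy : ∀ r, Cs l C y r (φ r)) (J : Subgroup G) (hJ : ∀ g, g • y = y → g ∈ J)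
    (hi : ∀ r, ∃ g : G, g • ((1 : G) : G ⧸ J) ∉ bl l ((1 : G) : G ⧸ J) r)
    (F : Finset X) (hF : ∀ z ∈ F, ∃ j ∈ J, j • y = z) : F.card ≤ C := by
  classical
  obtain ⟨L, hL⟩ := bl_bdd l y F
  obtain ⟨A, a1, a2, a3⟩ := hy L
  obtain ⟨g₀, h0⟩ := hi (φ L)
  have ex : ∃ m, ∃ g : G, l g = m ∧ (g : G ⧸ J) = g₀ := ⟨_, g₀, rfl, rfl⟩
  obtain ⟨g, g1, g2⟩ := Nat.find_spec ex
  have g3 : ∀ k : G, (k : G ⧸ J) = g → l g ≤ l k := fun k e =>
    g1 ▸ Nat.find_min' ex ⟨k, rfl, e.trans g2⟩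
  obtain ⟨γ, c0, c1, c2, c3⟩ := h.geo g
  have co : ∀ (a b : G) (z z' : X), z ∈ F → z' ∈ F → a • z = b • z' → (a : G ⧸ J) = b :=
    fun a b z z' hz hz' e => by
      obtain ⟨j, j1, rfl⟩ := hF _ hz
      obtain ⟨j', j3, rfl⟩ := hF _ hz'
      have := hJ (j⁻¹ * (a⁻¹ * b) * j') (by simp only [mul_smul, inv_smul_eq_iff]; exact e.symm)
      exact QuotientGroup.eq.2
        ((J.mul_mem_cancel_left (J.inv_mem j1)).1 ((J.mul_mem_cancel_right j3).1 this))
  have lt : ∀ s t, s ≤ l g → t ≤ l g → (γ s : G ⧸ J) = γ t → t ≤ s := fun s t hs ht e => by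
    have := g3 (g * (γ t)⁻¹ * γ s) (by
      have := congrArg ((g * (γ t)⁻¹) • ·) e
      simpa using this)
    have := h.mul (g * (γ t)⁻¹) (γ s)
    have := c3 s
    have := c3 t
    omega
  have : ∀ z, ∃ t, z ∈ F → t ≤ l g ∧ γ t • z ∈ bd l A := fun z => by
    by_cases hz : z ∈ F
    · refine (exit c0 c1 (a1 (hL z hz)) (l g) fun e => ?_).imp fun t ht _ => ht
      obtain ⟨k, k1, k2⟩ := a2 e
      obtain ⟨j, j1, rfl⟩ := hF _ hz
      refine h0 ⟨k, k1, ?_⟩
      have := hJ (k⁻¹ * (g * j)) (by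
        rw [mul_smul, inv_smul_eq_iff, mul_smul, ← c2]; exact k2.symm)
      rw [← mul_assoc, J.mul_mem_cancel_right j1, ← QuotientGroup.eq] at this
      simpa using this.trans g2
    · exact ⟨0, fun e => (hz e).elim⟩
  choose τ hτ using this
  rw [← Set.ncard_coe_finset]
  refine (Set.ncard_le_ncard_of_injOn (fun z => γ (τ z) • z) (fun z hz => (hτ z hz).2)
    (fun z hz z' hz' e => ?_) ((h.bl_fin y _).subset fun z hz => a2 hz.1)).trans a3
  have e' := co _ _ _ _ hz hz' e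
  have := (lt _ _ (hτ z hz).1 (hτ z' hz').1 e').antisymm (lt _ _ (hτ z' hz').1 (hτ z hz).1 e'.symm)
  exact MulAction.injective (γ (τ z)) (e.trans (by simp only [this]))

/-- chains of length `n` -/
def Rch (E : X → X → Prop) : ℕ → X → X → Prop
  | 0, x, y => x = y
  | n + 1, x, y => ∃ z, E x z ∧ Rch E n z y

theorem Rch.add {E : X → X → Prop} {n m : ℕ} {x y z : X} (h : Rch E n x y) (h' : Rch E m y z) :
    Rch E (n + m) x z := by
  induction n generalizing x with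
  | zero => rw [zero_add, show x = y from h]; exact h'
  | succ n ih =>
    obtain ⟨u, h1, h2⟩ := h
    rw [Nat.succ_add]
    exact ⟨u, h1, ih h2⟩

theorem Rch.symm {E : X → X → Prop} (hs : ∀ x y, E x y → E y x) {n : ℕ} {x y : X}
    (h : Rch E n x y) : Rch E n y x := by
  induction n generalizing x with
  | zero => exact Eq.symm h
  | succ n ih =>
    obtain ⟨u, h1, h2⟩ := h
    exact (ih h2).add (m := 1) ⟨x, hs _ _ h1, rfl⟩

theorem Rch.smul {E : X → X → Prop} (hi : ∀ (g : G) x y, E x y → E (g • x) (g • y)) (g : G) {n : ℕ}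
    {x y : X} (h : Rch E n x y) : Rch E n (g • x) (g • y) := by
  induction n generalizing x with
  | zero => exact congrArg _ h
  | succ n ih =>
    obtain ⟨u, h1, h2⟩ := h
    exact ⟨_, hi g _ _ h1, ih h2⟩

/-- an invariant graph of linear growth has small valence -/
theorem Len.valence (h : Len l) [MulAction.IsPretransitive G X] [Infinite X] {y : X}
    {φ : ℕ → ℕ} (hy : ∀ r, Cs l C y r (φ r)) {p a : ℕ} (hp : ∀ (g : G) (z : X), g ^ (p + 1) • z = z) {E : X → X → Prop}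
    (hr : ∀ x, E x x) (hs : ∀ x y, E x y → E y x) (hi : ∀ (g : G) x y, E x y → E (g • x) (g • y))
    (hb : ∀ j (F : Finset X), (∀ z ∈ F, Rch E j y z) → F.card ≤ a * (j + 1))
    (F : Finset X) (hF : ∀ z ∈ F, E y z) : F.card ≤ C := by
  classical
  let J : Subgroup G :=
    { carrier := {g | ∃ n, Rch E n y (g • y)}
      one_mem' := ⟨0, (one_smul _ _).symm⟩
      mul_mem' := fun {g k} ⟨n, h1⟩ ⟨m, h2⟩ => ⟨n + m, h1.add ((mul_smul g k y).symm ▸ h2.smul hi g)⟩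
      inv_mem' := fun {g} ⟨n, h1⟩ => ⟨n, by simpa using (h1.smul hi g⁻¹).symm hs⟩ }
  have mem : ∀ {n z}, Rch E n y z → ∃ j ∈ J, j • y = z := fun {n z} hz => by
    obtain ⟨g, rfl⟩ := MulAction.exists_smul_eq G y z
    exact ⟨g, ⟨n, hz⟩, rfl⟩
  refine h.block hy J (fun g e => ⟨0, e.symm⟩) (fun r => ?_) F fun z hz =>
    mem (n := 1) ⟨z, hF z hz, rfl⟩
  by_contra hc
  push Not at hc
  have inf : (MulAction.orbit J y).Infinite := fun hf => Set.infinite_univ
    (((h.fin r).biUnion fun g _ => hf.image (g • ·)).subset fun z _ => by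
      obtain ⟨g, rfl⟩ := MulAction.exists_smul_eq G y z
      obtain ⟨k, h1, h2⟩ := hc g
      have : k⁻¹ * g ∈ J := by simpa [QuotientGroup.eq] using h2
      exact Set.mem_biUnion h1 ⟨_, ⟨⟨_, this⟩, rfl⟩, by simp [mul_smul]⟩)
  have := inf.to_subtype
  have con : ∀ u v : MulAction.orbit J y, ∃ n, Rch E n u.1 v.1 := by
    rintro ⟨_, ⟨g, n, h1⟩, rfl⟩ ⟨_, ⟨k, m, h2⟩, rfl⟩
    exact ⟨n + m, (h1.symm hs).add h2⟩
  have up : ∀ {n m x z}, Rch E n x z → n ≤ m → Rch E m x z := fun {n m x z} h1 h2 => by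
    induction h2 with
    | refl => exact h1
    | step _ ih => exact ⟨x, hr x, ih⟩
  have le : ∀ u v n, Nat.find (con u v) ≤ n ↔ Rch E n u.1 v.1 := fun u v n =>
    ⟨up (Nat.find_spec (con u v)), Nat.find_min' (con u v)⟩
  refine no_line (J := J) (d := fun u v => Nat.find (con u v)) (o := ⟨y, MulAction.mem_orbit_self y⟩)
    (a := a) (p := p) ⟨fun u v => ?_, fun u v => ?_, fun u v w => ?_, fun u v n e => ?_⟩
    (fun g u v => ?_) (fun j => ?_) fun g z => Subtype.ext (hp g z)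
  · exact Nat.le_zero.symm.trans ((le u v 0).trans Subtype.ext_iff.symm)
  · exact eq_of_forall_ge_iff fun n => by rw [le, le]; exact ⟨.symm hs, .symm hs⟩
  · exact (le _ _ _).2 (((le _ _ _).1 le_rfl).add ((le _ _ _).1 le_rfl))
  · obtain ⟨z, h1, h2⟩ := (le _ _ _).1 e.le
    obtain ⟨m, h3⟩ := con ⟨y, MulAction.mem_orbit_self y⟩ u
    obtain ⟨j, h4, h5⟩ := mem (h3.add (m := 1) ⟨z, h1, rfl⟩)
    refine ⟨⟨z, ⟨j, h4⟩, h5⟩, (le _ _ _).2 ⟨z, h1, rfl⟩, ((le _ _ _).2 h2).antisymm ?_⟩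
    have := (le u v (_ + 1)).2 ⟨z, h1, (le ⟨z, ⟨j, h4⟩, h5⟩ v _).1 le_rfl⟩
    omega
  · refine eq_of_forall_ge_iff fun n => ?_
    rw [le, le]
    exact ⟨fun e => by simpa [Subgroup.smul_def] using e.smul hi (g⁻¹ : G), .smul hi (g : G)⟩
  · have k : ∀ F : Finset (MulAction.orbit J y), (F : Set _) ⊆
        {z | Nat.find (con ⟨y, MulAction.mem_orbit_self y⟩ z) ≤ j} → F.card ≤ a * (j + 1) :=
      fun F hF => by
        rw [← Finset.card_image_of_injective F Subtype.val_injective]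
        exact hb j _ (Finset.forall_mem_image.2 fun z hz => (le _ _ _).1 (hF hz))
    have f : {z | Nat.find (con ⟨y, MulAction.mem_orbit_self y⟩ z) ≤ j}.Finite := by
      by_contra hc
      obtain ⟨F, h1, h2⟩ := Set.Infinite.exists_subset_card_eq hc (a * (j + 1) + 1)
      have := k F h1
      omega
    exact ⟨f, Set.ncard_eq_toFinset_card _ f ▸ k _ f.coe_toFinset.subset⟩

theorem ncard_le_of {α β γ : Type} {A : Set α} (hA : A.Finite) {f : α → β} {g : α → γ}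
    (h : ∀ a ∈ A, ∀ b ∈ A, f a = f b → g a = g b) : (g '' A).ncard ≤ (f '' A).ncard := by
  rcases A.eq_empty_or_nonempty with rfl | ⟨a, -⟩
  · simp
  have : Nonempty α := ⟨a⟩
  refine le_trans (Set.ncard_le_ncard ?_ ((hA.image f).image _))
    (Set.ncard_image_le (f := fun z => g (Function.invFunOn f A z)) (hA.image f))
  rintro _ ⟨b, hb, rfl⟩
  exact ⟨_, ⟨b, hb, rfl⟩, h _ (Function.invFunOn_apply_mem hb) _ hb (Function.invFunOn_apply_eq hb)⟩

theorem Cs.transfer (h : Len l) {Y : Type} [MulAction G Y] {x : X} {y : Y} {r s : ℕ}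
    (e : ∀ g k : G, l g ≤ r + s + 1 → l k ≤ r + s + 1 → g • x = k • x → g • y = k • y)
    (c : Cs l C x r s) : Cs l C y r s := by
  obtain ⟨A, a1, a2, a3⟩ := c
  have k : ∀ g, l g ≤ r + s + 1 → g • x ∈ A → g • y ∈ (· • y) '' {g | l g ≤ s ∧ g • x ∈ A} :=
    fun g h1 h2 => by
      obtain ⟨k, k1, k2⟩ := a2 h2
      have : l k ≤ s := k1
      exact ⟨k, ⟨k1, (show k • x = _ from k2) ▸ h2⟩, e k g (by omega) h1 k2⟩
  refine ⟨(· • y) '' {g | l g ≤ s ∧ g • x ∈ A}, ?_, Set.image_mono fun g hg => hg.1, ?_⟩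
  · rintro _ ⟨g, hg, rfl⟩
    have : l g ≤ r := hg
    exact k g (by omega) (a1 ⟨g, hg, rfl⟩)
  have f : {g | l g ≤ s ∧ g • x ∈ bd l A}.Finite := (h.fin s).subset fun g hg => hg.1
  refine (Set.ncard_le_ncard ?_ (f.image (· • y))).trans ((ncard_le_of f (f := (· • x))
    fun a ha b hb => e a b (by have := ha.1; omega) (by have := hb.1; omega)).trans
    ((Set.ncard_le_ncard ?_ ((h.bl_fin x s).subset fun z hz => a2 hz.1)).trans a3))
  · rintro _ ⟨⟨g, ⟨g1, g2⟩, rfl⟩, hg⟩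
    refine ⟨g, ⟨g1, g2, fun e' => hg ?_⟩, rfl⟩
    rintro _ ⟨c, hc, rfl⟩
    have : l c ≤ 1 := hc
    have := h.mul c g
    simpa only [mul_smul] using k (c * g) (by omega) ((mul_smul c g x).symm ▸ e' ⟨c, hc, rfl⟩)
  · rintro _ ⟨g, hg, rfl⟩
    exact hg.2

section
variable (U : Ultrafilter ℕ) {Y : ℕ → Type} [∀ n, MulAction G (Y n)] (x : ∀ n, Y n)

/-- the limit of the stabilisers -/
def lim : Subgroup G where
  carrier := {g | ∀ᶠ n in (U : Filter ℕ), g • x n = x n}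
  one_mem' := .of_forall fun _ => one_smul _ _
  mul_mem' := fun h1 h2 => (h1.and h2).mono fun n h => by rw [mul_smul, h.2, h.1]
  inv_mem' := fun h => h.mono fun n h => inv_smul_eq_iff.2 h.symm

theorem lim_eq (g k : G) :
    (g : G ⧸ lim U x) = k ↔ ∀ᶠ n in (U : Filter ℕ), g • x n = k • x n :=
  QuotientGroup.eq.trans (eventually_congr (.of_forall fun n => by
    rw [mul_smul, inv_smul_eq_iff, eq_comm]))

theorem lim_iff {A : Set G} (hA : A.Finite) : ∀ᶠ n in (U : Filter ℕ), ∀ g ∈ A, ∀ k ∈ A,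
    (g • x n = k • x n ↔ (g : G ⧸ lim U x) = k) :=
  (eventually_all_finite hA).2 fun g _ => (eventually_all_finite hA).2 fun k _ => by
    by_cases e : (g : G ⧸ lim U x) = k
    · exact ((lim_eq U x g k).1 e).mono fun n h => iff_of_true h e
    · exact (Ultrafilter.eventually_not.2 (mt (lim_eq U x g k).2 e)).mono fun n h =>
        iff_of_false h e

theorem lim_card {A : Set G} (hA : A.Finite) : ∀ᶠ n in (U : Filter ℕ),
    ((· • x n) '' A).ncard = ((fun g : G => (g : G ⧸ lim U x)) '' A).ncard :=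
  (lim_iff U x hA).mono fun _ h => le_antisymm (ncard_le_of hA fun a ha b hb => (h a ha b hb).2)
    (ncard_le_of hA fun a ha b hb => (h a ha b hb).1)

theorem Len.lim_cs (h : Len l) (k : G) {r s : ℕ}
    (c : ∀ᶠ n in (U : Filter ℕ), Cs l C (k • x n) r s) : Cs l C (k : G ⧸ lim U x) r s := by
  obtain ⟨n, c, e⟩ := (c.and (lim_iff U x ((h.fin (r + s + 1)).image (· * k)))).exists
  exact c.transfer h fun a b ha hb e' =>
    (e _ ⟨a, ha, rfl⟩ _ ⟨b, hb, rfl⟩).1 (by simpa only [mul_smul] using e')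

theorem Len.lim_bl (h : Len l) (k : G) (r : ℕ) : ∀ᶠ n in (U : Filter ℕ),
    (bl l (k • x n) r).ncard = (bl l (k : G ⧸ lim U x) r).ncard :=
  (lim_card U x ((h.fin r).image (· * k))).mono fun n e => by
    simp only [Set.image_image, mul_smul] at e
    exact e

theorem Len.lim_inf (h : Len l)
    (hx : ∀ r, ∀ᶠ n in (U : Filter ℕ), ∃ g : G, g • x n ∉ bl l (x n) r) :
    Infinite (G ⧸ lim U x) := by
  by_contra hc
  have := not_infinite_iff_finite.1 hc
  obtain ⟨n, h1, h2⟩ := ((hx (Nat.card (G ⧸ lim U x))).and (h.lim_bl U x 1 _)).exists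
  have h3 := h.grow _ _ h1
  rw [one_smul] at h2
  exact absurd (h3.trans (h2.trans_le (Set.ncard_le_card _))) (by omega)

end

end Pool.Agent.Thin
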