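import Pool.Agent.Lib.MP_9675a1_al.Thin.Tie

/-! Tied sets can be enlarged, so there is no infinite transitive action of prime exponent,
polynomial growth and bounded cuts. -/

namespace Pool.Agent.Thin

open scoped Classical

variable {G : Type} [Group G] {X : Type} [MulAction G X] {l : G → ℕ} {C p D m : ℕ} {ξ : X → ℤ}

/-- the low points of an invariant set without fixed point carry tied blocks -/
def Cf (l : G → ℕ) (ξ : X → ℤ) (D m j M : ℕ) : Prop :=
  ∃ (g : G) (T : Set X) (a : ℤ) (U : Finset X), (∀ z ∈ T, g • z ∈ T ∧ g • z ≠ z) ∧ U.card ≤ j ∧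
    (∀ y ∈ T, y ∉ U → a ≤ ξ y) ∧ (∃ u ∈ U, ξ u + M ≤ a) ∧ ∀ u ∈ U, u ∈ T ∧
      ∃ V : Finset X, u ∈ V ∧ m ≤ V.card ∧ Tie l ξ a D V ∧ ∀ y ∈ T, y ∈ V → y = u

theorem cf_step (hl : Len l) (h : Hor l ξ) (j : ℕ) (hc : ∀ M, Cf l ξ D m j M) :
    ∃ E, Ok l ξ E (m + 1) := by
  induction j with
  | zero =>
    obtain ⟨_, _, _, U, -, h1, -, ⟨u, h2, -⟩, -⟩ := hc 0
    have := Finset.card_pos.2 ⟨u, h2⟩
    omega
  | succ j ih =>
    by_contra hn
    obtain ⟨N, hN⟩ := not_forall.1 (mt ih hn)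
    refine hn ⟨D + N, fun M => ?_⟩
    obtain ⟨g, T, a, U, h1, h2, h3, ⟨u, h4, h5⟩, h6⟩ := hc (M + N + D + N + 1)
    have t : Tie l ξ (a - N) N U := fun k y hy e y' hy' => by
      by_contra hlt
      refine hN ⟨k * g * k⁻¹, (k • ·) '' T, ξ (k • y) + N, (U.erase y').image (k • ·), ?_, ?_, ?_,
        ⟨k • y, ?_, le_rfl⟩, Finset.forall_mem_image.2 fun v hv => ?_⟩
      · rintro _ ⟨z, hz, rfl⟩
        simp only [mul_smul, inv_smul_smul, ne_eq, smul_left_cancel_iff]
        exact ⟨⟨_, (h1 z hz).1, rfl⟩, (h1 z hz).2⟩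
      · exact Finset.card_image_le.trans (by rw [Finset.card_erase_of_mem hy']; omega)
      · rintro _ ⟨z, hz, rfl⟩ hu
        show _ ≤ ξ (k • z)
        by_cases e' : z = y'
        · rw [e']; omega
        · have := h3 z hz fun hU => hu (Finset.mem_image_of_mem _ (Finset.mem_erase.2 ⟨e', hU⟩))
          have := h.lip k⁻¹ (k • z)
          rw [inv_smul_smul, hl.inv] at this
          omega
      · exact Finset.mem_image_of_mem _ (Finset.mem_erase.2 ⟨by rintro rfl; omega, hy⟩)
      · obtain ⟨v1, V, v2, v3, v4, v5⟩ := h6 v (Finset.mem_of_mem_erase hv)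
        refine ⟨⟨v, v1, rfl⟩, V.image (k • ·), Finset.mem_image_of_mem _ v2,
          by rwa [Finset.card_image_of_injective _ (MulAction.injective k)],
          (v4.smul hl k).mono (by omega) le_rfl Finset.coe_image.subset, ?_⟩
        rintro _ ⟨z, hz, rfl⟩ hV
        exact congrArg _ (v5 z hz ((MulAction.injective k).mem_finset_image.1 hV))
    obtain ⟨u1, V, v2, v3, v4, v5⟩ := h6 u h4
    obtain ⟨i, i1, i2⟩ := h.tie g u (h1 u u1).2
    have i3 : ∀ i : ℕ, g ^ i • u ∈ T := fun i => by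
      induction i with
      | zero => simpa
      | succ i ih => rw [pow_succ', mul_smul]; exact (h1 _ ih).1
    have i4 : g ^ i • u ∈ U := by
      by_contra e
      have := h3 _ (i3 i) e
      omega
    refine ⟨insert (g ^ i • u) V, u, Finset.mem_insert_of_mem v2, ((v4.mono (b := a - N) (by omega)
      le_rfl subset_rfl).union t v2 h4).mono (by omega) le_rfl ?_, ?_⟩
    · rw [Finset.coe_insert]
      exact Set.insert_subset (.inr i4) Set.subset_union_left
    · rw [Finset.card_insert_of_notMem fun e => i1 (v5 _ (i3 i) e)]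
      omega

theorem cf_start (hl : Len l) (h : Hor l ξ) (hq : p.Prime)
    (hp : ∀ (g : G) (z : X), g ^ p • z = z) (ho : Ok l ξ D m) (hn : ¬ Ok l ξ (D + D) (m + 1))
    (M : ℕ) : Cf l ξ D m p M := by
  obtain ⟨N, hN⟩ := not_forall.1 hn
  obtain ⟨V, u, v1, v2, v3⟩ := ho (M + N + D + D + p * (D + 1))
  obtain ⟨γ, g1, -⟩ := h.path hl u
  obtain ⟨g1, g2⟩ := g1 (D + 1)
  generalize γ (D + 1) = g at g1 g2
  have lg : ∀ i < p, l (g ^ i) ≤ p * (D + 1) := fun i hi =>
    (hl.pow g i).trans (Nat.mul_le_mul hi.le g1)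
  generalize p * (D + 1) = L at v2 lg
  have out : g • u ∉ V := fun e => by
    have := v2 1 _ e (by rw [one_smul, hl.one]; omega) u v1
    simp only [one_smul] at this
    omega
  have key : ∀ e, g ^ e • u ∈ V → g ^ e • u = u := fun e he => by
    rw [pow_mod hp] at he ⊢
    by_contra ne
    have lt := Nat.mod_lt e hq.pos
    generalize e % p = e at he ne lt
    obtain ⟨f, hf⟩ := fix_of (X := X) hq hp (g := g) (n := e) fun hd =>
      ne (by rw [Nat.eq_zero_of_dvd_of_lt hd lt, pow_zero, one_smul])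
    have := lg e lt
    have sub : ∀ v ∈ V, g ^ e • v ∈ V := fun v hv => by
      by_contra hv'
      refine hN ⟨insert (g ^ e • v) V, u, Finset.mem_insert_of_mem v1, ((v2.mono (by omega) le_rfl
        subset_rfl).union (v2.smul hl (g ^ e)) he ⟨u, v1, rfl⟩).mono (by omega) le_rfl ?_,
        by rw [Finset.card_insert_of_notMem hv']; omega⟩
      rw [Finset.coe_insert]
      exact Set.insert_subset (.inr ⟨v, hv, rfl⟩) Set.subset_union_left
    refine out (hf u ▸ ?_)
    clear hf
    induction f with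
    | zero => simpa
    | succ f ih => rw [pow_succ', mul_smul]; exact sub _ ih
  refine ⟨g, Set.range fun i : ℕ => g ^ i • u, ξ u + M, (Finset.range p).image fun i => g ^ i • u,
    ?_, Finset.card_image_le.trans (Finset.card_range p).le, ?_, ⟨u, Finset.mem_image.2
      ⟨0, Finset.mem_range.2 hq.pos, by simp⟩, le_rfl⟩, Finset.forall_mem_image.2 fun i hi => ?_⟩
  · rintro _ ⟨i, rfl⟩
    refine ⟨⟨i + 1, by simp [pow_succ', mul_smul]⟩, fun e => out ?_⟩
    rwa [show g • u = u from MulAction.injective (g ^ i)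
      (by simpa only [← mul_smul, ← pow_succ, ← pow_succ'] using e)]
  · rintro _ ⟨i, rfl⟩ hu
    exact (hu (Finset.mem_image.2 ⟨i % p, Finset.mem_range.2 (Nat.mod_lt _ hq.pos),
      (pow_mod hp g u i).symm⟩)).elim
  · have := lg i (Finset.mem_range.1 hi)
    refine ⟨⟨i, rfl⟩, V.image (g ^ i • ·), Finset.mem_image_of_mem _ v1,
      by rwa [Finset.card_image_of_injective _ (MulAction.injective _)],
      (v2.smul hl _).mono (by omega) le_rfl Finset.coe_image.subset, ?_⟩
    rintro _ ⟨j, rfl⟩ hV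
    obtain ⟨v, hv, e⟩ := Finset.mem_image.1 hV
    have e' : g ^ (i * (p - 1) + j) • u = v := by
      rw [pow_add, mul_smul, ← show _ = g ^ j • u from e, ← mul_smul, ← pow_add, ← mul_add_one,
        Nat.sub_add_cancel hq.one_le, pow_mul, hp]
    rw [← e, ← e', key _ (e' ▸ hv)]

theorem no_inf [MulAction.IsPretransitive G X] [Infinite X] (hl : Len l) {x : X} {K c : ℕ}
    {φ : ℕ → ℕ} (hx : ∀ r, (bl l x r).ncard ≤ C * (r + 1) ^ K) (hy : ∀ (y : X) r, Cs l c y r (φ r))
    (hq : p.Prime) (hp : ∀ (g : G) (z : X), g ^ p • z = z) : False := by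
  obtain ⟨ξ, h⟩ := hl.exists_hor hx hq hp
  have : ∀ m, ∃ D, Ok l ξ D m := fun m => by
    induction m with
    | zero =>
      refine ⟨0, fun M => ⟨{x}, x, by simp, fun g y hy _ z hz => ?_, by simp⟩⟩
      simp only [Finset.coe_singleton, Set.mem_singleton_iff] at hy hz
      simp [hy, hz]
    | succ m ih =>
      obtain ⟨D, ho⟩ := ih
      by_contra hn
      exact hn (cf_step hl h p (cf_start hl h hq hp ho fun e => hn ⟨_, e⟩))
  obtain ⟨D, ho⟩ := this _
  exact not_ok hl h hy (p := p - 1) (by rwa [Nat.sub_add_cancel hq.one_le]) ho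

end Pool.Agent.Thin
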