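import Pool.Agent.Lib.MP_9675a1_al.Thin.Main

/-! The case of linear growth (a special case of the hand-in `ThinNo`). -/

namespace Pool.Agent.Thin

theorem Len.cs_of_lin {G : Type} [Group G] {X : Type} [MulAction G X] {l : G → ℕ} {C : ℕ}
    (h : Len l) (y : X) (r : ℕ) (hy : (bl l y (2 * r + 2)).ncard ≤ C * (2 * r + 2 + 1)) :
    Cs l (2 * C) y r (2 * r + 2) := by
  by_contra hc
  have : ∀ i ≤ r + 2, i * (2 * C + 1) ≤ (bl l y (r + i)).ncard := fun i hi => by
    induction i with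
    | zero => simp
    | succ i ih =>
      have h1 := not_le.1 fun e => hc ⟨bl l y (r + (i + 1)), bl_mono y (by omega),
        bl_mono y (by omega), e⟩
      have h2 : bd l (bl l y (r + (i + 1))) ⊆ bl l y (r + (i + 1)) \ bl l y (r + i) :=
        fun z hz => ⟨hz.1, fun e => hz.2 fun _ ⟨s, hs, e'⟩ =>
          e' ▸ bl_mono y (by have : l s ≤ 1 := hs; omega) (h.smul_bl e s)⟩
      have h3 := Set.ncard_le_ncard h2 ((h.bl_fin y _).subset Set.sdiff_subset)
      have h4 := Set.ncard_sdiff_add_ncard_of_subset (bl_mono (l := l) y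
        (show r + i ≤ r + (i + 1) by omega)) (h.bl_fin y _)
      have := ih (by omega)
      rw [add_one_mul]
      omega
  have := this (r + 2) le_rfl
  rw [show r + (r + 2) = 2 * r + 2 by ring] at this
  nlinarith

theorem Len.linear {G : Type} [Group G] {l : G → ℕ} (hl : Len l) {p : ℕ} (hq : p.Prime) (C : ℕ) :
    ∃ d, ∀ (X : Type) [MulAction G X] (x : X),
      (∀ y ∈ bl l x d, ∀ w : G, l w ≤ d → w ^ p • y = y) →
      (∀ y ∈ bl l x d, ∀ r ≤ d, (bl l y r).ncard ≤ C * (r + 1)) → ∀ g : G, g • x ∈ bl l x d := by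
  obtain ⟨d, hd⟩ := hl.loc hq C 1 (2 * C) fun r => 2 * r + 2
  exact ⟨2 * d + 2, fun X _ x h1 h2 g => bl_mono x (by omega) (hd X x
    (fun y hy w e => h1 y (bl_mono x (by omega) hy) w (by omega))
    (fun r e => (pow_one (r + 1)).symm ▸ h2 x ⟨1, by simp [hl.one], one_smul _ _⟩ r (by omega))
    (fun y hy r e => hl.cs_of_lin y r (h2 y (bl_mono x (by omega) hy) _ (by omega))) g)⟩

end Pool.Agent.Thin
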