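import Pool.Agent.Lib.MP_9675a1_al.Thin.Dbl

/-! The local statement, by compactness. -/

namespace Pool.Agent.Thin

open Filter

theorem Len.loc {G : Type} [Group G] {l : G → ℕ} (hl : Len l) {p : ℕ} (hq : p.Prime) (C K c : ℕ)
    (φ : ℕ → ℕ) : ∃ d, ∀ (X : Type) [MulAction G X] (x : X),
      (∀ y ∈ bl l x d, ∀ w : G, l w ≤ d → w ^ p • y = y) →
      (∀ r ≤ d, (bl l x r).ncard ≤ C * (r + 1) ^ K) →
      (∀ y ∈ bl l x d, ∀ r ≤ d, Cs l c y r (φ r)) → ∀ g : G, g • x ∈ bl l x d := by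
  by_contra hc
  push Not at hc
  choose Y i x h1 h2 h4 g h3 using hc
  let U := hyperfilter ℕ
  have ev : ∀ k, ∀ᶠ n in (U : Filter ℕ), k ≤ n := fun k =>
    (eventually_ge_atTop k).filter_mono Nat.hyperfilter_le_atTop
  have := hl.lim_inf U x fun r => (ev r).mono fun n hn => ⟨g n, fun e => h3 n (bl_mono _ hn e)⟩
  refine no_inf (x := ((1 : G) : G ⧸ lim U x)) (C := C) (K := K) (c := c) (φ := φ) hl
    (fun r => ?_) (fun z r => ?_) hq fun w z => ?_
  · obtain ⟨n, e1, e2⟩ := ((hl.lim_bl U x 1 r).and (ev r)).exists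
    exact e1 ▸ (one_smul G (x n)).symm ▸ h2 n r e2
  · obtain ⟨v, rfl⟩ := QuotientGroup.mk_surjective z
    refine hl.lim_cs U x v ?_
    filter_upwards [ev (l v), ev r] with n e1 e2
    exact h4 n _ ⟨v, e1, rfl⟩ r e2
  · obtain ⟨v, rfl⟩ := QuotientGroup.mk_surjective z
    refine (lim_eq U x (w ^ p * v) v).2 ?_
    filter_upwards [ev (l v), ev (l w)] with n e1 e2
    rw [mul_smul, h1 n _ ⟨v, e1, rfl⟩ w e2]

theorem len_free (k : ℕ) : Len fun w : FreeGroup (Fin k) => w.toWord.length where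
  one := FreeGroup.norm_one
  mul := FreeGroup.norm_mul_le
  inv _ := FreeGroup.norm_inv_eq
  fin n := (List.finite_length_le _ n).preimage FreeGroup.toWord_injective.injOn
  zero _ := FreeGroup.norm_eq_zero.1
  step g n h := by
    rcases e : g.toWord with _ | ⟨a, L⟩
    · exact ⟨1, g, by simp, by simp [e], (one_mul g).symm⟩
    · refine ⟨.mk [a], .mk L, FreeGroup.norm_mk_le, FreeGroup.norm_mk_le.trans ?_, ?_⟩
      · simpa [e] using h
      · rw [FreeGroup.mul_mk, List.singleton_append, ← e, FreeGroup.mk_toWord]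

end Pool.Agent.Thin
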