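import Mathlib

/-! An infinite vertex transitive graph of linear growth has a translation. -/

namespace Pool.Agent.Thin

open Filter

/-- a geodesic distance -/
structure Geo {Z : Type} (d : Z → Z → ℕ) : Prop where
  zero : ∀ x y, d x y = 0 ↔ x = y
  symm : ∀ x y, d x y = d y x
  tri : ∀ x y z, d x z ≤ d x y + d y z
  step : ∀ x y n, d x y = n + 1 → ∃ z, d x z ≤ 1 ∧ d z y = n

variable {Z : Type} {d : Z → Z → ℕ} {A A' : Set Z} {o o' : Z} {R : ℕ}

theorem Geo.mid (h : Geo d) (i : ℕ) : ∀ x z m, d x z = i + m → ∃ y, d x y = i ∧ d y z = m := by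
  induction i with
  | zero => exact fun x z m e => ⟨x, (h.zero _ _).2 rfl, by omega⟩
  | succ i ih =>
    intro x z m e
    obtain ⟨u, h1, h2⟩ := h.step x z (i + m) (by omega)
    obtain ⟨y, h3, h4⟩ := ih u z m h2
    have := h.tri x u y
    have := h.tri x y z
    exact ⟨y, by omega, h4⟩

/-- all edges that cross `A` are close to `o` -/
def Cut (d : Z → Z → ℕ) (A : Set Z) (o : Z) (R : ℕ) : Prop :=
  ∀ u v, d u v ≤ 1 → u ∈ A → v ∉ A → d o u ≤ R ∧ d o v ≤ R

theorem Cut.compl (h : Geo d) (c : Cut d A o R) : Cut d Aᶜ o R :=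
  fun u v e hu hv => (c v u (h.symm u v ▸ e) (not_not.1 hv) hu).symm

theorem Cut.const (h : Geo d) (c : Cut d A o R) (far : R + R < d o o') (ho : o' ∈ A) (n : ℕ) :
    ∀ z, d z o' = n → n ≤ R → z ∈ A := by
  induction n with
  | zero => exact fun z e _ => (h.zero _ _).1 e ▸ ho
  | succ n ih =>
    intro z e hn
    obtain ⟨u, h1, h2⟩ := h.step z o' n e
    by_contra hz
    have := (c u z (h.symm z u ▸ h1) (ih u h2 (by omega)) hz).2
    have := h.tri o z o'
    omega

theorem Cut.nest (h : Geo d) (c : Cut d A o R) (c' : Cut d A' o' R) (far : R + R < d o o')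
    (h1 : o' ∈ A) (h2 : o ∉ A') : A' ⊆ A ∧ ∀ z, d o z ≤ R → z ∉ A' := by
  have k : ∀ z, d o z ≤ R → z ∉ A' := fun z hz =>
    (c'.compl h).const h (h.symm o o' ▸ far) h2 _ z rfl (h.symm o z ▸ hz)
  suffices ∀ n z, d z o = n → z ∈ A' → z ∈ A from ⟨fun z => this _ z rfl, k⟩
  intro n
  induction n with
  | zero => exact fun z e hz => (h2 ((h.zero _ _).1 e ▸ hz)).elim
  | succ n ih =>
    intro z e hz
    obtain ⟨u, e1, e2⟩ := h.step z o n e
    by_contra hA
    by_cases hu : u ∈ A'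
    · exact k z (c u z (h.symm z u ▸ e1) (ih u e2 hu) hA).2 hz
    · exact hA (c.const h far h1 _ z rfl (h.symm o' z ▸ (c' z u e1 hz hu).1))

theorem Geo.unb (h : Geo d) [Infinite Z] (hf : ∀ j, {z | d o z ≤ j}.Finite) (n : ℕ) :
    ∃ z, d o z = n := by
  obtain ⟨z, hz⟩ := (hf n).infinite_compl.nonempty
  obtain ⟨y, hy, -⟩ := h.mid n o z (d o z - n) (by simp only [Set.mem_compl_iff, Set.mem_ofPred_eq] at hz; omega)
  exact ⟨y, hy⟩

theorem small_sphere {a : ℕ} (hf : ∀ j, {z | d o z ≤ j}.Finite ∧ {z | d o z ≤ j}.ncard ≤ a * (j + 1))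
    (n : ℕ) : ∃ j, n ≤ j ∧ {z | d o z = j}.ncard ≤ 2 * a := by
  by_contra hc
  push Not at hc
  have : ∀ i, (i + 1) * (2 * a + 1) ≤ {z | n ≤ d o z ∧ d o z ≤ n + i}.ncard := by
    intro i
    induction i with
    | zero =>
      have := hc n le_rfl
      rw [show {z | n ≤ d o z ∧ d o z ≤ n + 0} = {z | d o z = n} from
        Set.ext fun z => ⟨fun h => by have := h.1; have := h.2; show _ = _; omega,
          fun h => ⟨h.ge, h.le⟩⟩]
      omega
    | succ i ih =>
      have := hc (n + (i + 1)) (by omega)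
      rw [show {z | n ≤ d o z ∧ d o z ≤ n + (i + 1)} = {z | n ≤ d o z ∧ d o z ≤ n + i} ∪
        {z | d o z = n + (i + 1)} from Set.ext fun z => by simp only [Set.mem_union, Set.mem_ofPred_eq]; omega,
        Set.ncard_union_eq (Set.disjoint_left.2 fun z h1 h2 => by
          have := h1.2; have : d o z = _ := h2; omega)
          ((hf (n + i)).1.subset fun z h => h.2) ((hf (n + (i + 1))).1.subset fun z h => h.le)]
      nlinarith
  have h1 := (this n).trans ((Set.ncard_le_ncard (fun z h => h.2) (hf _).1).trans (hf _).2)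
  nlinarith

variable {J : Type} [Group J] [MulAction J Z] [MulAction.IsPretransitive J Z]

theorem exists_cut (h : Geo d) [Infinite Z] (hi : ∀ (g : J) x y, d (g • x) (g • y) = d x y) {a : ℕ}
    (hf : ∀ j, {z | d o z ≤ j}.Finite ∧ {z | d o z ≤ j}.ncard ≤ a * (j + 1)) :
    ∃ A R, Cut d A o R ∧ (∀ k, ∃ u ∈ A, d o u = k) ∧ ∀ k, ∃ u ∉ A, d o u = k + 1 := by
  have k1 : ∀ n, ∃ (j : ℕ) (c : Z), n ≤ j ∧ {z | d c z = j}.Finite ∧ {z | d c z = j}.ncard ≤ 2 * a ∧
      ∀ k ≤ j, (∃ u, d o u = k ∧ d c u ≤ j) ∧ ∃ v, d o v = k ∧ j + k ≤ d c v := fun n => by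
    obtain ⟨j, h1, h2⟩ := small_sphere hf n
    obtain ⟨z, hz⟩ := h.unb (fun j => (hf j).1) (j + j)
    obtain ⟨y, y1, y2⟩ := h.mid j o z j hz
    obtain ⟨g, hg⟩ := MulAction.exists_smul_eq J y o
    have e : {z | d (g • o) z = j} = (g • ·) '' {z | d o z = j} := Set.ext fun z =>
      ⟨fun hz => ⟨g⁻¹ • z, by rw [← smul_inv_smul g z] at hz; exact (hi g _ _).symm.trans hz,
        smul_inv_smul g z⟩, by rintro ⟨u, hu, rfl⟩; exact (hi g _ _).trans hu⟩
    refine ⟨j, g • o, h1, e ▸ ((hf j).1.subset fun z h => h.le).image _, by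
      rwa [e, Set.ncard_image_of_injective _ (MulAction.injective g)], fun k hk => ?_⟩
    obtain ⟨u, u1, u2⟩ := h.mid (j - k) o y k (by omega)
    obtain ⟨v, v1, v2⟩ := h.mid k y z (j - k) (by omega)
    have := h.tri o v z
    exact ⟨⟨g • u, by rw [← u2, h.symm u, ← hi g y, hg], by rw [hi]; omega⟩,
      g • v, by rw [← v1, ← hi g y, hg], by rw [hi]; omega⟩
  choose j c j1 j2 j3 j4 using k1
  let U := hyperfilter ℕ
  have ev : ∀ k, ∀ᶠ n in (U : Filter ℕ), k ≤ j n := fun k =>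
    ((eventually_ge_atTop k).filter_mono Nat.hyperfilter_le_atTop).mono fun n hn => hn.trans (j1 n)
  let A : Set Z := {z | ∀ᶠ n in (U : Filter ℕ), d (c n) z ≤ j n}
  have fin : {u | u ∈ A ∧ ∃ v ∉ A, d u v ≤ 1}.Finite := by
    by_contra hc
    obtain ⟨F, F1, F2⟩ := Set.Infinite.exists_subset_card_eq hc (2 * a + 1)
    obtain ⟨n, hn⟩ := ((eventually_all_finset F).2 fun u hu => show ∀ᶠ n in (U : Filter ℕ),
      d (c n) u = j n from by
        obtain ⟨h1, v, h2, h3⟩ := F1 hu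
        filter_upwards [h1, Ultrafilter.eventually_not.2 h2] with n h4 h5
        have := h.tri (c n) u v
        omega).exists
    have := (Set.ncard_le_ncard (s := (F : Set Z)) hn (j2 n)).trans (j3 n)
    rw [Set.ncard_coe_finset] at this
    omega
  obtain ⟨R, hR⟩ := (fin.image (d o)).bddAbove
  have pick : ∀ (k : ℕ) (q : ℕ → Z → Prop), (∀ n, k ≤ j n → ∃ u, d o u = k ∧ q n u) →
      ∃ u, d o u = k ∧ ∀ᶠ n in (U : Filter ℕ), q n u := fun k q hq => by
    have := (Ultrafilter.eventually_exists_mem_iff (f := U) (P := fun u n => q n u)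
      ((hf k).1.subset (fun z (h : d o z = k) => h.le))).1 ((ev k).mono hq)
    exact this
  refine ⟨A, R + 1, fun u v e hu hv => ?_, fun k => ?_, fun k => ?_⟩
  · have := hR ⟨u, ⟨hu, v, hv, e⟩, rfl⟩
    have := h.tri o u v
    omega
  · obtain ⟨u, h1, h2⟩ := pick k _ fun n hn => (j4 n k hn).1
    exact ⟨u, h2, h1⟩
  · obtain ⟨u, h1, h2⟩ := pick (k + 1) _ fun n hn => (j4 n _ hn).2
    exact ⟨u, fun h3 => (h2.and h3).exists.elim fun n hn => by omega, h1⟩

theorem no_line (h : Geo d) [Infinite Z] (hi : ∀ (g : J) x y, d (g • x) (g • y) = d x y) {a p : ℕ}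
    (hf : ∀ j, {z | d o z ≤ j}.Finite ∧ {z | d o z ≤ j}.ncard ≤ a * (j + 1))
    (hp : ∀ (g : J) (z : Z), g ^ (p + 1) • z = z) : False := by
  obtain ⟨A, R, c, a1, a2⟩ := exists_cut h hi hf
  have tr : ∀ (B : Set Z) (g : J), Cut d B o R → Cut d {z | g⁻¹ • z ∈ B} (g • o) R :=
    fun B g c u v e hu hv => by
      have := c _ _ ((hi g⁻¹ u v).trans_le e) hu hv
      rwa [← hi g, ← hi g o, smul_inv_smul, smul_inv_smul] at this
  have no : ∀ (B : Set Z) (g : J) (z : Z), (∀ y, g⁻¹ • y ∈ B → y ∈ B) → z ∈ B → g⁻¹ • z ∈ B :=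
    fun B g z hB hz => by
      have : ∀ n, g ^ n • z ∈ B := fun n => by
        induction n with
        | zero => simpa
        | succ n ih => exact hB _ (by rwa [pow_succ', mul_smul, inv_smul_smul])
      have e := hp g z
      rw [pow_succ', mul_smul, ← eq_inv_smul_iff] at e
      exact e ▸ this p
  have bd : ∃ u ∈ A, ∃ v ∉ A, d o u ≤ R ∧ d o v ≤ R := by
    obtain ⟨v, v1, -⟩ := a2 0
    obtain ⟨u, u1, -⟩ := a1 0
    by_contra hc
    refine v1 ((show ∀ n z, d z u = n → z ∈ A from fun n => ?_) _ v rfl)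
    induction n with
    | zero => exact fun z e => (h.zero _ _).1 e ▸ u1
    | succ n ih =>
      intro z e
      obtain ⟨y, e1, e2⟩ := h.step z u n e
      by_contra hz
      exact hc ⟨y, ih y e2, z, hz, c y z (h.symm z y ▸ e1) (ih y e2) hz⟩
  obtain ⟨u, u1, v, v1, u2, v2⟩ := bd
  obtain ⟨x, x1, x2⟩ := a1 (R + R + 1)
  obtain ⟨y, y1, y2⟩ := a2 (R + R)
  obtain ⟨g, rfl⟩ := MulAction.exists_smul_eq J o x
  obtain ⟨k, rfl⟩ := MulAction.exists_smul_eq J o y
  by_cases g1 : g⁻¹ • o ∈ A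
  · have G := c.nest h (tr _ g (c.compl h)) (by omega) x1 (not_not.2 g1)
    by_cases k1 : k⁻¹ • o ∈ A
    · have K := (c.compl h).nest h (tr _ k (c.compl h)) (by omega) y1 (not_not.2 k1)
      exact K.2 v v2 (no Aᶜ k v (fun y hy => K.1 hy) v1)
    · have K := (c.compl h).nest h (tr _ k c) (by omega) y1 k1
      have e := no A (g * k) u (fun y hy => G.1 (K.1 (by rwa [mul_inv_rev, mul_smul] at hy))) u1
      exact G.2 u u2 (K.1 (by rwa [mul_inv_rev, mul_smul] at e))
  · have G := c.nest h (tr _ g c) (by omega) x1 g1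
    exact G.2 u u2 (no A g u (fun y hy => G.1 hy) u1)

end Pool.Agent.Thin
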