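import Pool.Agent.Lib.MP_9675a1_al.Thin.Xi

/-! Tied sets. -/

namespace Pool.Agent.Thin

open Filter
open scoped Classical

variable {G : Type} [Group G] {X : Type} [MulAction G X] {l : G → ℕ} {C p D D' : ℕ} {ξ : X → ℤ}
  {a b : ℤ} {U V : Set X} {u z : X} {φ : ℕ → ℕ}

/-- the points of `U` stay at the same height, up to `D`, as long as they descend fast -/
def Tie (l : G → ℕ) (ξ : X → ℤ) (a : ℤ) (D : ℕ) (U : Set X) : Prop :=
  ∀ g : G, ∀ x ∈ U, l g + ξ (g • x) ≤ a → ∀ y ∈ U, ξ (g • y) ≤ ξ (g • x) + D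

theorem Tie.mono (h : Tie l ξ a D U) (h1 : b ≤ a) (h2 : D ≤ D') (h3 : V ⊆ U) : Tie l ξ b D' V :=
  fun g x hx e y hy => by have := h g x (h3 hx) (e.trans h1) y (h3 hy); omega

theorem Tie.smul (hl : Len l) (h : Tie l ξ a D U) (k : G) :
    Tie l ξ (a - l k) D ((k • ·) '' U) := by
  rintro g _ ⟨x, hx, rfl⟩ e _ ⟨y, hy, rfl⟩
  have := hl.mul g k
  simp only [← mul_smul] at e ⊢
  exact h _ x hx (by omega) y hy

theorem Tie.union (h : Tie l ξ a D U) (h' : Tie l ξ a D' V) (h1 : z ∈ U) (h2 : z ∈ V) :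
    Tie l ξ (a - D - D') (D + D') (U ∪ V) := by
  rintro g x (hx | hx) e y (hy | hy)
  · have := h g x hx (by omega) y hy; omega
  · have := h g x hx (by omega) z h1
    have := h' g z h2 (by omega) y hy; omega
  · have := h' g x hx (by omega) z h2
    have := h g z h1 (by omega) y hy; omega
  · have := h' g x hx (by omega) y hy; omega

theorem tie_star (h : ∀ y ∈ U, Tie l ξ a D {u, y}) : Tie l ξ (a - D - D) (D + D) U :=
  fun g x hx e y hy => (h x hx).union (h y hy) (z := u) (.inl rfl) (.inl rfl) g x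
    (.inl (.inr rfl)) e y (.inr (.inr rfl))

theorem Hor.path (hl : Len l) (h : Hor l ξ) (u : X) : ∃ γ : ℕ → G,
    (∀ t, l (γ t) ≤ t ∧ ξ (γ t • u) = ξ u - t) ∧ ∀ t s, l (γ (t + s) * (γ t)⁻¹) ≤ s := by
  choose s s1 s2 using h.desc
  let γ : ℕ → G := fun t => Nat.rec 1 (fun _ g => s (g • u) * g) t
  have k : ∀ t r, l (γ (t + r) * (γ t)⁻¹) ≤ r := fun t r => by
    induction r with
    | zero => simp [hl.one]
    | succ r ih =>
      show l (s _ * γ (t + r) * _) ≤ _
      rw [mul_assoc]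
      exact (hl.mul _ _).trans ((add_le_add (s1 _) ih).trans (by omega))
  refine ⟨γ, fun t => ⟨by simpa [γ] using k 0 t, ?_⟩, k⟩
  induction t with
  | zero => simp [γ]
  | succ t ih =>
    show ξ ((s _ * γ t) • u) = _
    rw [mul_smul, s2, ih]; push_cast; ring

variable [MulAction.IsPretransitive G X]

theorem mass (hl : Len l) (h : Hor l ξ) (hu : ∀ r, Cs l C u r (φ r)) {γ : ℕ → G}
    (hγ : ∀ t, l (γ t) ≤ t ∧ ξ (γ t • u) = ξ u - t) (hs : ∀ t s, l (γ (t + s) * (γ t)⁻¹) ≤ s)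
    {F : Finset X} (hF : Tie l ξ a D F) (h1 : u ∈ F) (h2 : ξ u ≤ a) {q : ℕ} (h3 : C * q < F.card) :
    ∃ (z : X) (I : Finset ℕ) (t₀ : ℕ), q < I.card ∧ t₀ ∈ I ∧
      ∀ t ∈ I, t₀ ≤ t ∧ t ≤ t₀ + 2 * D ∧ ∃ x ∈ F, γ t • x = z := by
  obtain ⟨L, hL⟩ := bl_bdd l u F
  obtain ⟨A, a1, a2, a3⟩ := hu L
  have : ∀ x, ∃ t, x ∈ F → γ t • x ∈ bd l A := fun x => by
    by_cases hx : x ∈ F
    · refine (exit (hl.zero _ (Nat.le_zero.1 (hγ 0).1)) (fun t => hs t 1) (a1 (hL x hx))
        (φ L + D + 1) fun e => ?_).imp fun t ht _ => ht.2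
      obtain ⟨g, g1, g2⟩ := a2 e
      obtain ⟨g3, g4⟩ := hγ (φ L + D + 1)
      have := hF (γ (φ L + D + 1)) u h1 (by omega) x hx
      have := h.lip g⁻¹ (g • u)
      rw [inv_smul_smul, hl.inv, show g • u = _ from g2] at this
      have : l g ≤ φ L := g1
      omega
    · exact ⟨0, fun e => (hx e).elim⟩
  choose τ hτ using this
  have f : (bd l A).Finite := (hl.bl_fin u _).subset fun z hz => a2 hz.1
  obtain ⟨z, -, hz⟩ := Finset.exists_lt_card_fiber_of_mul_lt_card_of_maps_to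
    (s := F) (t := f.toFinset) (f := fun y => γ (τ y) • y) (n := q)
    (fun y hy => (Set.Finite.mem_toFinset _).2 (hτ y hy))
    ((Nat.mul_le_mul_right q (Set.ncard_eq_toFinset_card _ f ▸ a3)).trans_lt h3)
  rw [← Finset.card_image_of_injOn (f := τ) fun y hy y' hy' e =>
    MulAction.injective (γ (τ y)) ((Finset.mem_filter.1 hy).2.trans
      (e ▸ (Finset.mem_filter.1 hy').2.symm))] at hz
  generalize hI : Finset.image τ (F.filter fun y => γ (τ y) • y = z) = I at hz
  have k : ∀ t ∈ I, ∃ x ∈ F, γ t • x = z := fun t ht => by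
    obtain ⟨y, hy, rfl⟩ := Finset.mem_image.1 (hI ▸ ht)
    exact ⟨y, Finset.mem_filter.1 hy⟩
  have k' : ∀ t ∈ I, ξ z ≤ ξ u - t + D ∧ ξ u - t ≤ ξ z + D := fun t ht => by
    obtain ⟨x, x1, rfl⟩ := k t ht
    obtain ⟨g1, g2⟩ := hγ t
    have := hF (γ t) u h1 (by omega) x x1
    refine ⟨by omega, ?_⟩
    by_contra hc
    have := hF (γ t) x x1 (by omega) u h1
    omega
  have ne : I.Nonempty := Finset.card_pos.1 (by omega)
  exact ⟨z, I, I.min' ne, hz, I.min'_mem ne, fun t ht => ⟨I.min'_le t ht,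
    by have := k' t ht; have := k' _ (I.min'_mem ne); omega, k t ht⟩⟩

theorem Tie.card (hl : Len l) (h : Hor l ξ) (hu : ∀ r, Cs l C u r (φ r)) {F : Finset X}
    (hF : Tie l ξ a D F) (h1 : u ∈ F) (h2 : ξ u ≤ a) : F.card ≤ C * (2 * D + 1) := by
  obtain ⟨γ, g1, g2⟩ := h.path hl u
  by_contra hc
  obtain ⟨z, I, t, i1, -, i2⟩ := mass hl h hu g1 g2 hF h1 h2 (not_le.1 hc)
  have := Finset.card_le_card (s := I) (t := Finset.Icc t (t + 2 * D)) fun s hs =>
    Finset.mem_Icc.2 ⟨(i2 s hs).1, (i2 s hs).2.1⟩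
  rw [Nat.card_Icc] at this
  omega

/-- there are tied sets of size `m` with arbitrarily large reserve -/
def Ok (l : G → ℕ) (ξ : X → ℤ) (D m : ℕ) : Prop :=
  ∀ M : ℕ, ∃ (F : Finset X) (u : X), u ∈ F ∧ Tie l ξ (ξ u + M) D F ∧ m ≤ F.card

theorem Ok.near (hl : Len l) (h : Hor l ξ) (hy : ∀ (y : X) r, Cs l C y r (φ r))
    (ho : Ok l ξ D (C * C + 1)) (M : ℕ) : ∃ (x : X) (W : Set G), W ⊆ {g | l g ≤ 2 * D} ∧ C < ((· • x) '' W).ncard ∧
      ∀ w ∈ W, Tie l ξ (ξ x + M) (D + D) {x, w • x} := by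
  obtain ⟨F, u, h1, h2, h3⟩ := ho (M + 4 * D)
  obtain ⟨γ, g1, g2⟩ := h.path hl u
  obtain ⟨z, I, t, i1, i2, i3⟩ := mass hl h (hy u) g1 g2 h2 h1 (by omega) h3
  refine ⟨γ t • u, (fun s => γ s * (γ t)⁻¹) '' I, ?_, ?_, ?_⟩
  · rintro _ ⟨s, hs, rfl⟩
    obtain ⟨r, rfl⟩ := Nat.exists_eq_add_of_le (i3 s hs).1
    exact (g2 t r).trans (by have := (i3 _ hs).2.1; omega)
  · rw [Set.image_image, Set.InjOn.ncard_image, Set.ncard_coe_finset]
    · exact i1
    · intro s _ r _ e
      have e := congrArg ξ e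
      simp only [mul_smul, inv_smul_smul, (g1 _).2] at e
      omega
  · rintro _ ⟨s, hs, rfl⟩
    obtain ⟨s1, s2, x, x1, x2⟩ := i3 s hs
    obtain ⟨-, -, y, y1, y2⟩ := i3 t i2
    have := g1 s
    have := g1 t
    refine (((h2.smul hl (γ t)).mono (b := ξ u + (M + 4 * D : ℕ) - s) (by omega) le_rfl
      subset_rfl).union ((h2.smul hl (γ s)).mono (by omega) le_rfl subset_rfl) ⟨y, y1, y2⟩
      ⟨x, x1, x2⟩).mono (by push_cast; omega) le_rfl ?_
    rintro _ (rfl | rfl)
    · exact .inl ⟨u, h1, rfl⟩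
    · exact .inr ⟨u, h1, by simp [mul_smul]⟩

theorem not_ok [Infinite X] (hl : Len l) (h : Hor l ξ) (hy : ∀ (y : X) r, Cs l C y r (φ r))
    (hp : ∀ (g : G) (z : X), g ^ (p + 1) • z = z) : ¬ Ok l ξ D (C * C + 1) := fun ho => by
  choose x W w1 w2 w3 using ho.near hl h hy
  let U := hyperfilter ℕ
  obtain ⟨A, A1, A2⟩ := (Ultrafilter.eventually_exists_mem_iff (f := U) (P := fun A n => W n = A)
    (hl.fin (2 * D)).finite_subsets).1 (.of_forall fun n => ⟨_, w1 n, rfl⟩)
  have Af : A.Finite := (hl.fin _).subset A1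
  let Q : ℕ → G → G → Prop := fun E g k => ∀ M : ℕ, ∀ᶠ n in (U : Filter ℕ),
    Tie l ξ (ξ (x n) + M) E {g • x n, k • x n}
  have Qc : ∀ {E} {g k g' k' : G}, Q E g k → (g : G ⧸ lim U x) = g' → (k : G ⧸ lim U x) = k' →
      Q E g' k' := fun q e e' M => by
    filter_upwards [q M, (lim_eq U x _ _).1 e, (lim_eq U x _ _).1 e'] with n h1 h2 h3
    rwa [← h2, ← h3]
  have Qr : ∀ E g, Q E g g := fun E g M => .of_forall fun n k y hy _ z hz => by
    rw [show y = z from (hy.elim id id).trans (hz.elim id id).symm]; omega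
  have := hl.lim_inf U x fun r => .of_forall fun n => by
    obtain ⟨y, hy⟩ := (hl.bl_fin (x n) r).infinite_compl.nonempty
    obtain ⟨g, rfl⟩ := MulAction.exists_smul_eq G (x n) y
    exact ⟨g, hy⟩
  have ch : ∀ j (g k : G), Rch (fun a b : G ⧸ lim U x => ∃ g k : G, ↑g = a ∧ ↑k = b ∧
      Q (D + D) g k) j g k → Q (j * (D + D)) g k := fun j => by
    induction j with
    | zero => exact fun g k e => Qc (Qr _ g) rfl e
    | succ j ih =>
      rintro g k ⟨_, ⟨g', m, e, rfl, q⟩, r⟩ M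
      filter_upwards [Qc q e rfl (M + (D + D) + j * (D + D)), ih m k r (M + (D + D) + j * (D + D))]
        with n h1 h2
      refine (h1.union h2 (.inr rfl) (.inl rfl)).mono (by push_cast; omega)
        (by rw [add_one_mul]; omega) ?_
      rintro _ (rfl | rfl)
      · exact .inl (.inl rfl)
      · exact .inr (.inr rfl)
  have key := hl.valence (y := ((1 : G) : G ⧸ lim U x)) (C := C) (p := p)
    (a := C * (4 * (D + D) + 1)) (fun r => hl.lim_cs U x 1 (.of_forall fun n => hy _ r))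
    (fun g z => by
      obtain ⟨k, rfl⟩ := QuotientGroup.mk_surjective z
      exact (lim_eq U x _ _).2 (.of_forall fun n => by
        show (g ^ (p + 1) * k) • x n = _
        rw [mul_smul, hp]))
    (E := fun a b => ∃ g k : G, ↑g = a ∧ ↑k = b ∧ Q (D + D) g k)
    (fun z => (QuotientGroup.mk_surjective z).elim fun g e => ⟨g, g, e, e, Qr _ g⟩)
    (fun _ _ ⟨g, k, e1, e2, q⟩ => ⟨k, g, e2, e1, fun M => (q M).mono fun n e =>
      Set.pair_comm _ _ ▸ e⟩)
    (by
      rintro c _ _ ⟨g, k, rfl, rfl, q⟩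
      refine ⟨c * g, c * k, rfl, rfl, fun M => (q (M + l c)).mono fun n e =>
        (e.smul hl c).mono (by push_cast; omega) le_rfl ?_⟩
      rw [Set.image_pair, mul_smul, mul_smul])
    (fun j F hF => by
      obtain ⟨n, h1, h2⟩ := (((eventually_all_finset F).2 fun z hz => ch j 1 z.out
        (by rw [QuotientGroup.out_eq']; exact hF z hz) (j * (D + D) + j * (D + D))).and
        (lim_card U x (F.finite_toSet.image Quotient.out))).exists
      simp only [Set.image_image, QuotientGroup.out_eq', Set.image_id', Set.ncard_coe_finset,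
        one_smul] at h1 h2
      have h3 := Tie.card hl h (hy (x n)) (F := insert (x n) (F.image fun z => z.out • x n))
        (tie_star (u := x n) (a := ξ (x n) + (j * (D + D) + j * (D + D) : ℕ)) (D := j * (D + D))
          fun y hy => by
            rcases Finset.mem_insert.1 hy with rfl | hy
            · intro k y hy _ z hz
              rw [show y = z from (hy.elim id id).trans (hz.elim id id).symm]; omega
            · obtain ⟨z, hz, rfl⟩ := Finset.mem_image.1 hy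
              exact h1 z hz) (Finset.mem_insert_self _ _) (by push_cast; omega)
      rw [← h2, ← Finset.coe_image, Set.ncard_coe_finset]
      refine (Finset.card_le_card (Finset.subset_insert _ _)).trans (h3.trans ?_)
      rw [mul_assoc _ _ (j + 1)]
      exact Nat.mul_le_mul_left _ (by nlinarith))
    (Af.image fun g : G => (g : G ⧸ lim U x)).toFinset fun z hz => by
      obtain ⟨w, hw, rfl⟩ := (Set.Finite.mem_toFinset _).1 hz
      refine ⟨1, w, rfl, rfl, fun M => ?_⟩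
      filter_upwards [A2, (eventually_ge_atTop M).filter_mono Nat.hyperfilter_le_atTop] with n e e'
      rw [one_smul]
      exact (w3 n w (e ▸ hw)).mono (by omega) le_rfl subset_rfl
  obtain ⟨n, h1, h2⟩ := (A2.and (lim_card U x Af)).exists
  have := w2 n
  rw [h1, h2, Set.ncard_eq_toFinset_card _ (Af.image _)] at this
  omega

end Pool.Agent.Thin
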