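import Pool.Agent.Lib.MP_9675a1_al.Thin.Bas
import Pool.Agent.Lib.MP_96a0c3_al.Gro.Core

/-! A height function whose minimum on every cycle is attained twice. -/

namespace Pool.Agent.Thin

open Filter
open scoped Classical Pointwise

variable {G : Type} [Group G] {X : Type} [MulAction G X] {l : G → ℕ} {C p : ℕ}

theorem Len.no_poly (h : Len l) {Q : Type} [Group Q] [Infinite Q] (π : G →* Q)
    (sur : Function.Surjective π) (hp : ∀ q : Q, q ^ (p + 1) = 1) {D : ℕ}
    (hg : ∀ (n : ℕ) (F : Finset Q), (∀ q ∈ F, ∃ g, l g ≤ n ∧ π g = q) →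
      F.card ≤ C * (n + 1) ^ D) : False := by
  have mem : ∀ q, q ∈ (h.fin 1).toFinset.image π ↔ ∃ g, l g ≤ 1 ∧ π g = q := fun q => by simp
  obtain ⟨H, -, χ, hχ⟩ := Gro.gromov_core ((h.fin 1).toFinset.image π)
    ((mem _).2 ⟨1, by simp [h.one], map_one _⟩)
    (Finset.ext fun q => by
      rw [Finset.mem_inv', mem, mem]
      exact ⟨fun ⟨g, h1, h2⟩ => ⟨g⁻¹, h.inv g ▸ h1, by simp [h2]⟩,
        fun ⟨g, h1, h2⟩ => ⟨g⁻¹, h.inv g ▸ h1, by simp [h2]⟩⟩)
    ((Subgroup.eq_top_iff' _).2 fun q => by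
      obtain ⟨g, rfl⟩ := sur q
      induction hn : l g using Nat.strong_induction_on generalizing g with
      | _ n ih =>
      rcases n with _ | n
      · rw [h.zero g hn, map_one]; exact one_mem _
      · obtain ⟨s, k, h1, h2, rfl⟩ := h.step g n hn.le
        rw [map_mul]
        exact mul_mem (Subgroup.subset_closure ((mem _).2 ⟨s, h1, rfl⟩)) (ih _ (by omega) k rfl))
    (C := C) (D := D) fun n => hg n _ (by
      induction n with
      | zero => exact fun q hq => ⟨1, h.one.le, (map_one _).trans (Finset.mem_one.1 hq).symm⟩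
      | succ n ih =>
        intro q hq
        rw [pow_succ] at hq
        obtain ⟨a, ha, b, hb, rfl⟩ := Finset.mem_mul.1 hq
        obtain ⟨g, g1, rfl⟩ := ih a ha
        obtain ⟨s, s1, rfl⟩ := (mem _).1 hb
        exact ⟨g * s, (h.mul _ _).trans (by omega), map_mul _ _ _⟩)
  refine hχ (MonoidHom.ext fun q => ?_)
  have := congrArg χ (show q ^ (p + 1) = 1 from Subtype.ext (hp q.1))
  rw [map_pow, map_one] at this
  exact (pow_eq_one_iff_left p.succ_ne_zero).1 this

theorem Len.exists_fix (h : Len l) [MulAction.IsPretransitive G X] [Infinite X] {x : X} {K : ℕ}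
    (hy : ∀ r, (bl l x r).ncard ≤ C * (r + 1) ^ K) (hp : ∀ (g : G) (z : X), g ^ (p + 1) • z = z) (F : Finset X) :
    ∃ g : G, (∀ z ∈ F, g • z = z) ∧ ∃ z : X, g • z ≠ z := by
  by_contra hc
  push Not at hc
  let π := (MulAction.toPermHom G X).rangeRestrict
  have sur : Function.Surjective π := MonoidHom.rangeRestrict_surjective _
  obtain ⟨L, hL⟩ := bl_bdd l x F
  have : Infinite (MulAction.toPermHom G X).range :=
    .of_surjective (fun q => q.1 x) fun y => (MulAction.exists_smul_eq G x y).elim fun g e => ⟨π g, e⟩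
  refine h.no_poly π sur (p := p) (fun q => ?_) (C := (C * (L + 1) ^ K) ^ F.card) (D := K * F.card)
    fun n A k1 => ?_
  · obtain ⟨g, rfl⟩ := sur q
    rw [← map_pow]
    exact Subtype.ext (Equiv.ext (hp g))
  refine (Finset.card_le_card_of_injOn (t := Fintype.piFinset fun _ : F =>
    (h.bl_fin x (n + L)).toFinset) (fun q z => q.1 z.1) (fun q hq => ?_)
    fun q _ q' _ e => ?_).trans ?_
  · obtain ⟨g, g1, rfl⟩ := k1 q hq
    exact Fintype.mem_piFinset.2 fun z => (Set.Finite.mem_toFinset _).2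
      (bl_mono x (Nat.add_le_add_right g1 L) (h.smul_bl (hL _ z.2) g))
  · obtain ⟨g, rfl⟩ := sur q
    obtain ⟨k, rfl⟩ := sur q'
    refine Subtype.ext (Equiv.ext fun z => ?_)
    have := hc (k⁻¹ * g) (fun z hz => by
      rw [mul_smul, inv_smul_eq_iff]; exact congrFun e ⟨z, hz⟩) z
    rwa [mul_smul, inv_smul_eq_iff] at this
  · rw [Fintype.card_piFinset, pow_mul, ← mul_pow, ← Fintype.card_coe F, ← Finset.card_univ]
    refine Finset.prod_le_pow_card _ _ _ fun z _ =>
      Set.ncard_eq_toFinset_card _ (h.bl_fin x (n + L)) ▸ (hy _).trans ?_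
    rw [mul_assoc, ← mul_pow]
    exact Nat.mul_le_mul_left _ (Nat.pow_le_pow_left (by nlinarith [Nat.zero_le (L * n)]) _)

theorem pow_mod (hp : ∀ (g : G) (z : X), g ^ p • z = z) (g : G) (z : X) (n : ℕ) :
    g ^ n • z = g ^ (n % p) • z := by
  conv_lhs => rw [← Nat.mod_add_div' n p, pow_add, pow_mul, mul_smul, hp]

theorem fix_of (hq : p.Prime) (hp : ∀ (g : G) (z : X), g ^ p • z = z) {g : G} {n : ℕ}
    (hn : ¬ p ∣ n) : ∃ f, ∀ z : X, (g ^ n) ^ f • z = g • z := by
  obtain ⟨f, -, hf⟩ := Nat.exists_mul_mod_eq_one_of_coprime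
    ((hq.coprime_iff_not_dvd.2 hn).symm) hq.one_lt
  exact ⟨f, fun z => by rw [← pow_mul, pow_mod hp, hf, pow_one]⟩

/-- a cycle does not meet a support in exactly one point -/
theorem not_one (hq : p.Prime) (hp : ∀ (g : G) (z : X), g ^ p • z = z) {g k : G} {y : X}
    (h1 : g • y ≠ y) (h2 : k • y ≠ y) : ∃ i : ℕ, g ^ i • y ≠ y ∧ k • g ^ i • y ≠ g ^ i • y := by
  by_contra hc
  push Not at hc
  have : ∀ j, j < p → (g * k) ^ (j + 1) • k⁻¹ • y = g ^ (j + 1) • y := fun j hj => by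
    induction j with
    | zero => simp [mul_smul]
    | succ j ih =>
      rw [pow_succ', mul_smul, ih (by omega), mul_smul, hc, ← mul_smul, ← pow_succ']
      intro e
      obtain ⟨f, hf⟩ := fix_of (X := X) hq hp (g := g) (Nat.not_dvd_of_pos_of_lt j.succ_pos hj)
      exact h1 (hf y ▸ pow_mem (show g ^ (j + 1) ∈ MulAction.stabilizer G y from e) f)
  have e := this (p - 1) (Nat.sub_one_lt hq.ne_zero)
  rw [Nat.sub_add_cancel hq.one_le, hp, hp, inv_smul_eq_iff] at e
  exact h2 e.symm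

/-- height functions -/
structure Hor (l : G → ℕ) (ξ : X → ℤ) : Prop where
  lip : ∀ (g : G) x, ξ (g • x) ≤ ξ x + l g
  desc : ∀ x, ∃ s : G, l s ≤ 1 ∧ ξ (s • x) = ξ x - 1
  tie : ∀ (g : G) x, g • x ≠ x → ∃ i : ℕ, g ^ i • x ≠ x ∧ ξ (g ^ i • x) ≤ ξ x

theorem Len.exists_hor (h : Len l) [MulAction.IsPretransitive G X] [Infinite X] {x : X} {K : ℕ}
    (hy : ∀ r, (bl l x r).ncard ≤ C * (r + 1) ^ K) (hq : p.Prime)
    (hp : ∀ (g : G) (z : X), g ^ p • z = z) : ∃ ξ : X → ℤ, Hor l ξ := by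
  choose k k1 k2 using fun n => h.exists_fix hy
    (p := p - 1) (by rwa [Nat.sub_add_cancel hq.one_le]) (h.bl_fin x n).toFinset
  have ex : ∀ n (y : X), ∃ m, ∃ g : G, l g ≤ m ∧ k n • g • y ≠ g • y := fun n y => by
    obtain ⟨z, hz⟩ := k2 n
    obtain ⟨g, rfl⟩ := MulAction.exists_smul_eq G y z
    exact ⟨_, g, le_rfl, hz⟩
  let D : ℕ → X → ℕ := fun n y => Nat.find (ex n y)
  have D1 : ∀ n y, ∃ g : G, l g ≤ D n y ∧ k n • g • y ≠ g • y := fun n y => Nat.find_spec (ex n y)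
  have D2 : ∀ n y (g : G), k n • g • y ≠ g • y → D n y ≤ l g := fun n y g e =>
    Nat.find_min' (ex n y) ⟨g, le_rfl, e⟩
  have lip : ∀ n (g : G) y, D n (g • y) ≤ D n y + l g := fun n g y => by
    obtain ⟨a, a1, a2⟩ := D1 n y
    have := D2 n (g • y) (a * g⁻¹) (by simpa [mul_smul] using a2)
    have := h.mul a g⁻¹
    have := h.inv g
    omega
  have lip' : ∀ n (g : G) y, D n y ≤ D n (g • y) + l g := fun n g y => by
    simpa [h.inv] using lip n g⁻¹ (g • y)
  let U := hyperfilter ℕ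
  have li : ∀ y, ∃ z : ℤ, ∀ᶠ n in (U : Filter ℕ), (D n y : ℤ) - D n x = z := fun y => by
    obtain ⟨g, rfl⟩ := MulAction.exists_smul_eq G x y
    obtain ⟨z, -, hz⟩ := (Ultrafilter.eventually_exists_mem_iff (f := U)
      (P := fun z n => (D n (g • x) : ℤ) - D n x = z) (Set.finite_Icc (-(l g : ℤ)) (l g))).1
      (.of_forall fun n => ⟨_, by have := lip n g x; have := lip' n g x; constructor <;> omega, rfl⟩)
    exact ⟨z, hz⟩
  choose ξ hξ using li
  refine ⟨ξ, fun g y => ?_, fun y => ?_, fun g y hg => ?_⟩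
  · obtain ⟨n, h1, h2⟩ := ((hξ y).and (hξ (g • y))).exists
    have := lip n g y
    omega
  · obtain ⟨a, rfl⟩ := MulAction.exists_smul_eq G x y
    obtain ⟨s, s1, s2⟩ := (Ultrafilter.eventually_exists_mem_iff (f := U)
      (P := fun (s : G) n => D n (s • a • x) + 1 = D n (a • x)) (h.fin 1)).1
      (((eventually_ge_atTop (l a)).filter_mono Nat.hyperfilter_le_atTop).mono fun n hn => by
        obtain ⟨g, g1, g2⟩ := D1 n (a • x)
        rcases e : D n (a • x) with _ | m
        · rw [h.zero g (by omega), one_smul] at g2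
          exact (g2 (k1 n _ ((Set.Finite.mem_toFinset _).2 ⟨a, hn, rfl⟩))).elim
        · obtain ⟨s, b, s1, s2, s3⟩ := h.step g⁻¹ m (by rw [h.inv]; omega)
          have := D2 n (s⁻¹ • a • x) b⁻¹ (by rwa [← mul_smul b⁻¹, ← mul_inv_rev, ← s3, inv_inv])
          have := lip' n s⁻¹ (a • x)
          have := h.inv s
          have := h.inv b
          exact ⟨s⁻¹, (h.inv s).trans_le s1, by omega⟩)
    obtain ⟨n, h1, h2, h3⟩ := (s2.and ((hξ (a • x)).and (hξ (s • a • x)))).exists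
    exact ⟨s, s1, by omega⟩
  · obtain ⟨i, -, i2⟩ := (Ultrafilter.eventually_exists_mem_iff (f := U)
      (P := fun (i : ℕ) n => g ^ i • y ≠ y ∧ D n (g ^ i • y) ≤ D n y) (Set.finite_lt_nat p)).1
      (.of_forall fun n => by
        obtain ⟨a, a1, a2⟩ := D1 n y
        obtain ⟨i, i1, i2⟩ := not_one hq hp (g := a * g * a⁻¹) (y := a • y)
          (by simpa [mul_smul] using hg) a2
        simp only [conj_pow, mul_smul, inv_smul_smul, ne_eq, smul_left_cancel_iff] at i1 i2
        rw [pow_mod hp g] at i1 i2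
        exact ⟨i % p, Nat.mod_lt _ hq.pos, i1, (D2 n _ a i2).trans a1⟩)
    obtain ⟨n, h1, h2, h3⟩ := (i2.and ((hξ y).and (hξ (g ^ i • y)))).exists
    exact ⟨i, h1.1, by have := h1.2; omega⟩

end Pool.Agent.Thin
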